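import Pool.Agent.N19.RB.Amn

/-!
# The Alperin–McKay–Navarro conjecture reduces to numbers of fixed characters in Galois-stable blocks
for subgroups of `p`-power index with cyclic quotient

`O` is a valuation subring of `ℂ` whose maximal ideal contains `p`; it defines the `p`-blocks of
finite groups. Let `B` be a `p`-block of `G` with defect group `D` and Brauer correspondent `b`, let
`m = |G|_{p'}` and `P = (ℤ/p)^× × (ℤ/m)^×`, and for `σ ∈ Aut(ℂ)` let `c(σ) ∈ P` be given by the
exponents of `σ` on the `p`-th and the `m`-th roots of unity. Let `Δ ≤ H` be a group fixing `B`, let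
`Q = c(Δ)` and `ι = P/Q`; for `i = c(σ)Q ∈ ι` put `B_i = σ(B)`. Let `P` act on
`N_k = C_m × 𝔽_p^k × G^ι` and put `W_k = N_k ⋊ P`. The characters of `W_k`, `k ≥ 1`, above
`λ ⊗ μ ⊗ ⨂ τ_i` with a fixed faithful `λ`, arbitrary `μ` and `τ_i ∈ B_i` form a Galois-stable block
with defect group `𝔽_p^k × D^ι` (the central characters vanish outside `N_k` modulo the maximal ideal,
since the stabiliser `(ℤ/p)^×` of `λ` acts on `𝔽_p^k` without fixed points), and its Brauer
correspondent is obtained from the `b_i` in the same way. Those above some `μ ≠ 1` are induced from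
`N_k`, and such a character is fixed by `σ` if and only if `σ(τ_i) = τ_{c(σ) i}` for all `i`. So the
numbers of characters of height zero of `W_2` and `W_1` fixed by a group `L` differ by `p x^n`, where
`x` is the number of characters in `Irr₀(B)` fixed by all `σ ∈ L` with `c(σ) ∈ Q`, and `n` is the number
of orbits of `L` on `ι`. The subgroup `L` of the group `H` of `W_1` is chosen such that these `σ` act on
the characters of `G` like the elements of `Δ` and that `H/L` is a `p`-group: modulo the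
automorphisms acting like elements of `Δ`, those with `c(σ) ∈ Q` form a `p`-group, which is a quotient
of a group of wild inertia, and for odd `p` a faithful character of this cyclic group is extended.
-/

set_option autoImplicit false

namespace Pool.Agent.Results.MP_7f1e7e_al.GaloisStableCyclic

open Pool.Agent.Q259.BW Pool.Agent.Q288.MB Pool.Agent.N19.RB

/-- Let `p` be any prime. (1) Let `B` be a `p`-block of a finite group with defect group `D` and
Brauer correspondent `b`, and let `Δ` be a subgroup of `H_B`. There are `n ≥ 1`, `l`, Galois-stable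
`p`-blocks `B₁`, `B₂` with defect groups `D^l × 𝔽_p`, `D^l × 𝔽_p^2` and Brauer correspondents `b₁`, `b₂`,
and a subgroup `L` of the groups `H` belonging to `B₁` and `B₂` such that `H/L` is a `p`-group (cyclic,
if `p` is odd) and the numbers of fixed characters satisfy
`|Irr₀(B₂)^L| = |Irr₀(B₁)^L| + p |Irr₀(B)^Δ|^n` and `|Irr₀(b₂)^L| = |Irr₀(b₁)^L| + p |Irr₀(b)^Δ|^n`.
(2) Let `C` be a class of groups closed under isomorphisms, finite powers and direct products with
elementary abelian `p`-groups. The Alperin–McKay–Navarro conjecture holds for all `p`-blocks with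
defect groups in `C` if and only if `|Irr₀(B)^L| = |Irr₀(b)^L|` for those of them which are equal to
all their Galois conjugates and all subgroups `L ≤ H` such that `H/L` is a `p`-group, cyclic if `p` is
odd. -/
theorem result (p : ℕ) [Fact p.Prime] (O : ValuationSubring ℂ) (hpO : (p : ℂ) ∈ O.nonunits) :
    (∀ X : Dat, X.IsBrauer p O → ∀ Δ : Subgroup (ℂ ≃+* ℂ),
      (∀ δ ∈ Δ, δ ∈ HG p X.G ∧ gal δ X.B = X.B) →
      ∃ (Y : ℕ → Dat) (L : Subgroup (ℂ ≃+* ℂ)) (n l : ℕ), n ≠ 0 ∧
        (∀ k, 0 < k → (Y k).IsBrauer p O ∧ (∀ σ : ℂ ≃+* ℂ, gal σ (Y k).B = (Y k).B) ∧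
          PIndex p (Y k).G L ∧
          Nonempty ((Y k).D ≃* (Fin l → X.D) × (Fin k → Multiplicative (ZMod p)))) ∧
        Nat.card (Fx (L : Set (ℂ ≃+* ℂ)) ((Y 2).ht0 p)) =
          Nat.card (Fx (L : Set (ℂ ≃+* ℂ)) ((Y 1).ht0 p)) +
            p * Nat.card (Fx (Δ : Set (ℂ ≃+* ℂ)) (X.ht0 p)) ^ n ∧
        Nat.card (Fx (L : Set (ℂ ≃+* ℂ)) ((Y 2).ht0' p)) =
          Nat.card (Fx (L : Set (ℂ ≃+* ℂ)) ((Y 1).ht0' p)) +
            p * Nat.card (Fx (Δ : Set (ℂ ≃+* ℂ)) (X.ht0' p)) ^ n) ∧
    ∀ C : (D : Type) → Group D → Prop, ElClosed p C →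
      ((∀ X : Dat, X.IsBrauer p O → C X.D inferInstance → AMN p X) ↔
        ∀ X : Dat, X.IsBrauer p O → C X.D inferInstance → (∀ σ : ℂ ≃+* ℂ, gal σ X.B = X.B) →
          ∀ L : Subgroup (ℂ ≃+* ℂ), PIndex p X.G L →
            Nat.card (Fx (L : Set (ℂ ≃+* ℂ)) (X.ht0 p)) =
              Nat.card (Fx (L : Set (ℂ ≃+* ℂ)) (X.ht0' p))) :=
  ⟨fun _ hX Δ hΔ => exists_pair hpO hX Δ hΔ, fun _ hC =>
    ⟨fun h X hX hD h1 L hL => num_of_bij (h X hX hD) fun σ hσ => ⟨hL.le hσ, h1 σ⟩,
      fun h X hX hD => amn_reduction hpO hC h X hX hD⟩⟩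

end Pool.Agent.Results.MP_7f1e7e_al.GaloisStableCyclic
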