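import Pool.Agent.N85.TG.All
import Pool.Agent.N85.TG.Blk
import Pool.Agent.Q259.BW.Bij

/-!
# The Alperin–McKay–Navarro conjecture and groups generated by `p`-elements and copies of a
`p'`-group

`F` is an algebraically closed field of characteristic `p` and `red` a ring homomorphism from the ring
of all complex algebraic integers to `F`. The elements of the group algebra `F[G]` are the functions
`G → F`, those of its centre the class functions. The blocks of `G` are given by their central
characters. For a group `A` of automorphisms of `ℂ` let `A_p(G)` be the group of the elements of `A` which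
act on the `|G|`-th roots of unity with `p`-power order; its image in the automorphism group of the
field of the `|G|`-th roots of unity is the Sylow `p`-subgroup of the image of `A`.

Proof. Let `B` be a block of `H` with defect group `D ≠ 1`, `|D| = p ^ d`; we may assume that `B` is
`A_p(H)`-stable. There is a central idempotent `z` of `F[H]` such that the blocks of `H` under `z` are the
twists of `B` by linear characters; let `N` be the number of those which are `A_p(H)`-stable. The linear
characters `λ` of order prime to `p` with `λB = B'` are a coset of a group of order prime to `p`; so if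
`B` and `B'` are `A_p(H)`-stable, `λ` can be chosen fixed by the `p`-group `A_p(H)`. Hence the number of the
fixed characters of defect `d` under `z` is `N` times the number of those in `B`. The idempotent `z` is
supported on elements `x` such that the Sylow `p`-subgroups of `C_H(x)` are contained in conjugates of
`D`, and on the smallest normal subgroup of `H` whose factor group is abelian of order prime to `p`.
Let `T = S^r`, `n = |T|`, and let `Γ` be the subgroup of `H ≀ T` generated by the `p`-elements and by the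
kernel of the homomorphism `H ≀ T → H/[H, H]`, the product of the components; it is generated by
`p`-elements and subgroups isomorphic to `S`, and `|H ≀ T : Γ|` divides `|H/[H, H]|` and is prime to `p`.
Let `X` be a normal subgroup of `J` of index `m` prime to `p` and `A` a group of automorphisms which acts
on the `|J|`-th roots of unity as a `p`-group. The number of the irreducible constituents of `χ|_X`
divides `m`, so one of them is fixed by `A` if `χ` is; and a fixed irreducible character `θ` of `X` lies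
under a fixed one with the same `p`-part of the degree: consider `∑ ⟨χ|_X, θ⟩ χ(1)/θ(1) = m` modulo `p`.
So passing from `J` to `X` and back changes the number of the fixed irreducible characters of the
maximal defect `nd` under `z ⊗ ⋯ ⊗ z` at most by the factor `m`, and the same holds for the normalizers
of `Q = D^n` and the characters in blocks with defect group `Q`. The fixed characters of `H^n` are the
products of fixed characters. So the number of the fixed characters of defect `nd` of `Γ` under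
`z ⊗ ⋯ ⊗ z` is `(N k₀(B))^n` and the number of those of `N_Γ(Q)` in blocks with defect group `Q` is
`(N k₀(b))^n`, up to factors which are polynomials in `n` (`k₀` counts fixed characters). The blocks of
`Γ` which contain such characters have the defect groups `Q^h`, `h ∈ H^n`, because of the support of `z`.
The approximate conjecture for these blocks gives `k₀(B)^n ≤ c₁ n^c₂ |Γ|^o(1) k₀(b)^n` (or the opposite
inequality); let `n → ∞`.
-/

set_option autoImplicit false

open scoped Classical

noncomputable section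

namespace Pool.Agent.Results.MP_7f1e7e_al.GeneratedByCopies

/-- `φ` is the character of an irreducible finite-dimensional representation of `G` over `ℂ`. -/
def IsIrr {G : Type} [Group G] (φ : G → ℂ) : Prop :=
  ∃ (V : Type) (_ : AddCommGroup V) (_ : Module ℂ V) (_ : FiniteDimensional ℂ V)
    (ρ : Representation ℂ G V), ρ.IsIrreducible ∧ φ = ρ.character

/-- `f` is a class function. -/
def IsClassFun {K G : Type} [Group G] (f : G → K) : Prop := ∀ g x : G, f (g * x * g⁻¹) = f x

/-- `B` is (the central character of) a block of `G`: an algebra homomorphism from the centre of `F[G]`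
to `F`. (The values of `B` at functions which are not class functions are irrelevant.) -/
def IsBlock {F : Type} [Field F] {G : Type} [Group G] (B : (G → F) → F) : Prop :=
  (∀ f g : G → F, IsClassFun f → IsClassFun g → B (f + g) = B f + B g) ∧
  (∀ (a : F) (f : G → F), IsClassFun f → B (a • f) = a * B f) ∧
  B (Pi.single 1 1) = 1 ∧
  ∀ f g : G → F, IsClassFun f → IsClassFun g →
    B (fun x => ∑ᶠ y : G, f y * g (y⁻¹ * x)) = B f * B g

/-- The sum of the conjugacy class of `x`. -/
def classSum {F G : Type} [Field F] [Group G] (x : G) : G → F :=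
  fun y => if IsConj x y then 1 else 0

/-- `D` is a defect group of the block `B`: a Sylow `p`-subgroup of the centralizer of an element `x` with
`B (classSum x) ≠ 0`, of the smallest possible order. -/
def IsDefectGroup (p : ℕ) {F : Type} [Field F] {G : Type} [Group G] (B : (G → F) → F)
    (D : Subgroup G) : Prop :=
  IsPGroup p D ∧
  (∃ x : G, D ≤ Subgroup.centralizer ({x} : Set G) ∧ (Nat.card D).factorization p =
    (Nat.card (Subgroup.centralizer ({x} : Set G))).factorization p ∧ B (classSum x) ≠ 0) ∧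
  ∀ x : G, B (classSum x) ≠ 0 → (Nat.card D).factorization p ≤
    (Nat.card (Subgroup.centralizer ({x} : Set G))).factorization p

/-- The reduction map `red`, extended by zero to all complex numbers. -/
def redC {F : Type} [Field F] (red : integralClosure ℤ ℂ →+* F) (a : ℂ) : F :=
  if h : IsIntegral ℤ a then red ⟨a, h⟩ else 0

/-- `∑_C f(C) · red (|C| χ(C) / χ(1))`, the sum over the conjugacy classes `C` of `J`: the value of the
reduction of the central character of `χ` at the central element `f` of `F[J]`. -/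
def centralValue {F : Type} [Field F] (red : integralClosure ℤ ℂ →+* F) {J : Type} [Group J]
    (χ : J → ℂ) (f : J → F) : F :=
  ∑ᶠ C : ConjClasses J, f C.out * redC red ((Nat.card C.carrier : ℂ) * χ C.out / χ 1)

/-- `χ(1)_p = |G : D|_p`. -/
def DegreeIndex (p : ℕ) {G : Type} [Group G] (χ : G → ℂ) (D : Subgroup G) : Prop :=
  ∃ n : ℕ, χ 1 = (n : ℂ) ∧
    n.factorization p + (Nat.card D).factorization p = (Nat.card G).factorization p

/-- `Irr₀(B)`: the irreducible characters of height zero in the block `B` with the defect group `D`. -/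
def Irr0 (p : ℕ) {F : Type} [Field F] (red : integralClosure ℤ ℂ →+* F) {G : Type} [Group G]
    (B : (G → F) → F) (D : Subgroup G) : Set (G → ℂ) :=
  {χ | (IsIrr χ ∧ ∀ f : G → F, IsClassFun f → centralValue red χ f = B f) ∧ DegreeIndex p χ D}

/-- `Irr₀(b)` for the Brauer correspondent `b` of `B`: the irreducible characters `ψ` of `N_G(D)` of height
zero in the blocks with the defect group `D` which induce the block `B` (by Brauer's first main theorem
there is exactly one such block). -/
def Irr0Local (p : ℕ) {F : Type} [Field F] (red : integralClosure ℤ ℂ →+* F) {G : Type} [Group G]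
    (B : (G → F) → F) (D : Subgroup G) : Set (Subgroup.normalizer (D : Set G) → ℂ) :=
  {ψ | (IsIrr ψ ∧ (∀ f : G → F, IsClassFun f → centralValue red ψ (fun x => f x) = B f) ∧
    DegreeIndex p ψ (D.subgroupOf (Subgroup.normalizer (D : Set G)))) ∧
    IsDefectGroup p (centralValue red ψ) (D.subgroupOf (Subgroup.normalizer (D : Set G)))}

/-- The subgroup generated by the elements of `A` which act on the `n`-th roots of unity with `p`-power
order (for `n > 0` these elements form a subgroup, since automorphisms commute on the roots of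
unity). For `n = |G|` this is `A_p(G)`. -/
def pPart (p : ℕ) (A : Subgroup (ℂ ≃+* ℂ)) (n : ℕ) : Subgroup (ℂ ≃+* ℂ) :=
  Subgroup.closure {t | t ∈ A ∧ ∃ k : ℕ, ∀ ζ : ℂ, ζ ^ n = 1 → (t ^ p ^ k) ζ = ζ}

/-- The number of the functions in `X` which are fixed by all elements of `A`. -/
def fixedNum (A : Subgroup (ℂ ≃+* ℂ)) {G : Type} (X : Set (G → ℂ)) : ℕ :=
  Nat.card {χ : G → ℂ // χ ∈ X ∧ ∀ t ∈ A, ∀ x : G, t (χ x) = χ x}

/-- The group `A` of automorphisms permutes `X` and the actions of `A` on `X` and `Y` are permutation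
isomorphic: there is a bijection `f : X → Y` with `f(σ χ) = σ f(χ)` for all `σ ∈ A`, `χ ∈ X`. -/
def PermIso (A : Subgroup (ℂ ≃+* ℂ)) {G H : Type} (X : Set (G → ℂ)) (Y : Set (H → ℂ)) : Prop :=
  ∃ f : X ≃ Y, ∀ σ ∈ A, ∀ χ : X, ∃ h : (fun g => σ ((χ : G → ℂ) g)) ∈ X,
    (f ⟨fun g => σ ((χ : G → ℂ) g), h⟩ : H → ℂ) = fun g => σ ((f χ : H → ℂ) g)

/-- `χ` is an irreducible character in the block `B`. -/
def InBlock {F : Type} [Field F] (red : integralClosure ℤ ℂ →+* F) {G : Type} [Group G]
    (B : (G → F) → F) (χ : G → ℂ) : Prop :=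
  IsIrr χ ∧ ∀ f : G → F, IsClassFun f → centralValue red χ f = B f

/-- `A_B`: the stabilizer in `A` of the block `B`, that is, of the set `Irr(B)`. -/
def blockStab {F : Type} [Field F] (red : integralClosure ℤ ℂ →+* F) (A : Subgroup (ℂ ≃+* ℂ))
    {G : Type} [Group G] (B : (G → F) → F) : Subgroup (ℂ ≃+* ℂ) where
  carrier := {σ | σ ∈ A ∧ ∀ χ : G → ℂ, InBlock red B (fun g => σ (χ g)) ↔ InBlock red B χ}
  one_mem' := ⟨A.one_mem, fun _ => Iff.rfl⟩
  mul_mem' := by
    rintro σ τ ⟨h1, h2⟩ ⟨h3, h4⟩
    exact ⟨A.mul_mem h1 h3, fun χ => (h2 fun g => τ (χ g)).trans (h4 χ)⟩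
  inv_mem' := by
    rintro σ ⟨h1, h2⟩
    refine ⟨A.inv_mem h1, fun χ => ?_⟩
    have h3 := h2 fun g => (σ⁻¹ : ℂ ≃+* ℂ) (χ g)
    have h4 : (fun g => σ ((σ⁻¹ : ℂ ≃+* ℂ) (χ g))) = χ :=
      funext fun g => σ.apply_symm_apply (χ g)
    rw [h4] at h3
    exact h3.symm

/-- The class `𝒞` of groups is closed under isomorphisms and direct powers. -/
def ClosedUnderPowers (𝒞 : ∀ (P : Type) [Group P], Prop) : Prop :=
  (∀ (P P' : Type) [Group P] [Group P'], (P ≃* P') → 𝒞 P → 𝒞 P') ∧
  ∀ (P : Type) [Group P] (n : ℕ), 𝒞 P → 𝒞 (Fin n → P)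

/-- `G` is generated by its `p`-elements and its subgroups isomorphic to `S`. -/
def GeneratedBy (p : ℕ) (S G : Type) [Group S] [Group G] : Prop :=
  Subgroup.closure {x : G | ∃ j : ℕ, orderOf x = p ^ j} ⊔
    (⨆ S' : {S' : Subgroup G // Nonempty (S' ≃* S)}, S'.1) = ⊤

/-- The relation `R` holds for the numbers of the characters in `Irr₀(B)` and `Irr₀(b)` fixed by `A_p(G)`,
for all blocks `B` with defect groups in `𝒞` of all finite groups `G`. -/
def Exact (p : ℕ) {F : Type} [Field F] (red : integralClosure ℤ ℂ →+* F)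
    (A : Subgroup (ℂ ≃+* ℂ)) (𝒞 : ∀ (P : Type) [Group P], Prop) (R : ℕ → ℕ → Prop) : Prop :=
  ∀ (G : Type) [Group G] [Finite G], ∀ B : (G → F) → F, IsBlock B → ∀ D : Subgroup G,
    IsDefectGroup p B D → 𝒞 D → R (fixedNum (pPart p A (Nat.card G)) (Irr0 p red B D))
      (fixedNum (pPart p A (Nat.card G)) (Irr0Local p red B D))

/-- For every `ε > 0` there is a constant `C` such that `R C' a b` with `C' = C |G|^ε` for the numbers `a`,
`b` of the characters in `Irr₀(B)` and `Irr₀(b)` fixed by `A_p(G)`, for all blocks `B` with defect groups in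
`𝒞` of the finite groups `G` generated by `p`-elements and subgroups isomorphic to `S`. -/
def Approximate (p : ℕ) {F : Type} [Field F] (red : integralClosure ℤ ℂ →+* F)
    (A : Subgroup (ℂ ≃+* ℂ)) (𝒞 : ∀ (P : Type) [Group P], Prop) (S : Type) [Group S]
    (R : ℝ → ℝ → ℝ → Prop) : Prop :=
  ∀ ε : ℝ, 0 < ε → ∃ C : ℝ, ∀ (G : Type) [Group G] [Finite G], GeneratedBy p S G →
    ∀ B : (G → F) → F, IsBlock B → ∀ D : Subgroup G, IsDefectGroup p B D → 𝒞 D →
      R (C * (Nat.card G : ℝ) ^ ε) (fixedNum (pPart p A (Nat.card G)) (Irr0 p red B D))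
        (fixedNum (pPart p A (Nat.card G)) (Irr0Local p red B D))

theorem block_iff {F : Type} [Field F] {G : Type} [Group G] (B : (G → F) → F) :
    IsBlock B ↔ Pool.Agent.Y63.NV.IsBlock B :=
  ⟨fun h => ⟨h.1, h.2.1, h.2.2.1, h.2.2.2⟩, fun h => ⟨h.add, h.smul, h.one, h.mul⟩⟩

theorem dg_iff {p : ℕ} {F : Type} [Field F] {G : Type} [Group G] (B : (G → F) → F)
    (D : Subgroup G) : IsDefectGroup p B D ↔ Pool.Agent.N85.AM.IsDG p B D :=
  ⟨fun h => ⟨h.1, h.2.1, h.2.2⟩, fun h => ⟨h.pg, h.syl, h.min⟩⟩

theorem card_sub {G : Type} [Group G] (D : Subgroup G) :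
    Nat.card (D.subgroupOf (Subgroup.normalizer (D : Set G))) = Nat.card D :=
  Nat.card_congr (Subgroup.subgroupOfEquivOfLe Subgroup.le_normalizer).toEquiv

theorem hz_eq {p : ℕ} {F : Type} [Field F] (red : integralClosure ℤ ℂ →+* F)
    (A : Subgroup (ℂ ≃+* ℂ)) {G : Type} [Group G] (B : (G → F) → F) (D : Subgroup G) :
    fixedNum A (Irr0 p red B D) =
      Pool.Agent.N85.TG.hzT p red A B ((Nat.card D).factorization p) := rfl

theorem loc_eq (h : Pool.Agent.N85.AM.S_DGN) {p : ℕ} [Fact p.Prime] {F : Type} [Field F]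
    [IsAlgClosed F] [CharP F p] (red : integralClosure ℤ ℂ →+* F) (A : Subgroup (ℂ ≃+* ℂ))
    {G : Type} [Group G] [Finite G] (B : (G → F) → F) (D : Subgroup G) (hD : IsPGroup p D) :
    fixedNum A (Irr0Local p red B D) =
      Pool.Agent.N85.TG.klocT p red A B D ((Nat.card D).factorization p) := by
  have hc := card_sub D
  have hn : (D.subgroupOf (Subgroup.normalizer (D : Set G))).Normal := inferInstance
  have hp : IsPGroup p (D.subgroupOf (Subgroup.normalizer (D : Set G))) :=
    hD.comap_of_injective _ (Subgroup.subtype_injective _)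
  unfold fixedNum Pool.Agent.N85.TG.klocT
  refine Nat.card_congr (Equiv.subtypeEquivRight fun ψ => and_congr_left fun _ => ?_)
  have h1 : DegreeIndex p ψ (D.subgroupOf (Subgroup.normalizer (D : Set G))) ↔
      Pool.Agent.N85.KG.HasDef p ψ ((Nat.card D).factorization p) := by
    unfold DegreeIndex Pool.Agent.N85.KG.HasDef
    rw [hc]
  constructor
  · rintro ⟨⟨a, b, c⟩, d⟩
    refine ⟨⟨a, b, h1.1 c⟩, ?_⟩
    have h2 := (h p F red _ _ hp ψ a).2 ((dg_iff _ _).1 d)
    rwa [hc] at h2
  · rintro ⟨⟨a, b, c⟩, d⟩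
    refine ⟨⟨a, b, h1.2 c⟩, ?_⟩
    rw [← hc] at d
    exact (dg_iff _ _).2 ((h p F red _ _ hp ψ a).1 d)

theorem pPart_le (p : ℕ) (A : Subgroup (ℂ ≃+* ℂ)) (n : ℕ) : pPart p A n ≤ A :=
  (Subgroup.closure_le _).2 fun _ ht => ht.1

/-- a subgroup of `A_p(G)` is its own `p`-part -/
theorem pPart_self {p : ℕ} [Fact p.Prime] {A D : Subgroup (ℂ ≃+* ℂ)} {n : ℕ} (hn : 0 < n)
    (h : D ≤ pPart p A n) : pPart p D n = D := by
  refine le_antisymm (pPart_le p D n) fun t ht => ?_
  exact Subgroup.subset_closure ⟨ht, Pool.Agent.N85.TG.Ppg.main p A n hn t (h ht)⟩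

theorem pPart_mono (p : ℕ) {A D : Subgroup (ℂ ≃+* ℂ)} (hD : D ≤ A) (n : ℕ) :
    pPart p D n ≤ pPart p A n := by
  refine (Subgroup.closure_le _).2 ?_
  rintro t ⟨ht, k, hk⟩
  exact Subgroup.subset_closure ⟨hD ht, k, hk⟩

section blocks

variable {p : ℕ} {F : Type} [Field F] (red : integralClosure ℤ ℂ →+* F) {G : Type} [Group G]
  [Finite G]

theorem degree_t {N : Type} [Group N] {ψ : N → ℂ} {D : Subgroup N} (t : ℂ ≃+* ℂ)
    (h : DegreeIndex p ψ D) : DegreeIndex p (fun g => t (ψ g)) D := by
  obtain ⟨n, hn, h2⟩ := h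
  refine ⟨n, ?_, h2⟩
  change t (ψ 1) = _
  rw [hn, map_natCast]

theorem stable0 {A : Subgroup (ℂ ≃+* ℂ)} {B : (G → F) → F} {D : Subgroup G} {σ : ℂ ≃+* ℂ}
    (hσ : σ ∈ blockStab red A B) {χ : G → ℂ} (h : χ ∈ Irr0 p red B D) :
    (fun g => σ (χ g)) ∈ Irr0 p red B D :=
  ⟨(hσ.2 χ).2 h.1, degree_t σ h.2⟩

theorem stableL {A : Subgroup (ℂ ≃+* ℂ)} {B : (G → F) → F} (hB : IsBlock B) {D : Subgroup G}
    {σ : ℂ ≃+* ℂ} (hσ : σ ∈ blockStab red A B) {χ : G → ℂ} (hχ : InBlock red B χ)
    {ψ : Subgroup.normalizer (D : Set G) → ℂ} (h : ψ ∈ Irr0Local p red B D) :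
    (fun g => σ (ψ g)) ∈ Irr0Local p red B D := by
  obtain ⟨j, k, ht⟩ := Pool.Agent.N85.TG.Blk.ex_ex σ (Nat.card_pos (α := G))
  have h1 : ∀ x : G, B (Pool.Agent.N85.AM.cl (x ^ j)) = B (Pool.Agent.N85.AM.cl x) :=
    fun x => Pool.Agent.N85.TG.Blk.stab_cl red ht hχ ((hσ.2 χ).2 hχ) x
  obtain ⟨⟨a, b, c⟩, d⟩ := h
  refine ⟨⟨Pool.Agent.Q90.WR.irr_gal σ a, fun f hf => ?_, degree_t σ c⟩, ?_⟩
  · exact Pool.Agent.N85.TG.Blk.loc_all red ((block_iff B).1 hB) ht h1 _ a b f hf
  · exact (dg_iff _ _).2 (Pool.Agent.N85.TG.Blk.loc_dg red ht _ a ((dg_iff _ _).1 d))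

/-- if a character in `B` or an irreducible character of a subgroup in a block which induces `B` is
fixed by `A`, then `A` stabilizes `B` -/
theorem le_stab {A : Subgroup (ℂ ≃+* ℂ)} {B : (G → F) → F} (hB : IsBlock B)
    (h : Pool.Agent.N85.TG.TSt A B) : A ≤ blockStab red A B := by
  intro t ht
  refine ⟨ht, fun χ => ?_⟩
  obtain ⟨j, k, hj⟩ := Pool.Agent.N85.TG.Blk.ex_ex t (Nat.card_pos (α := G))
  exact Pool.Agent.N85.TG.Blk.stab_of_cl red ((block_iff B).1 hB) hj (h t ht j hj.act) χ

theorem finX {B : (G → F) → F} {D : Subgroup G} : (Irr0 p red B D).Finite := by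
  have h : Finite (Irr0 p red B D) := Pool.Agent.N85.KG.fin_sub G fun χ h => h.1.1
  exact Set.toFinite _

theorem finY {B : (G → F) → F} {D : Subgroup G} : (Irr0Local p red B D).Finite := by
  have h : Finite (Irr0Local p red B D) := Pool.Agent.N85.KG.fin_sub _ fun χ h => h.1.1
  exact Set.toFinite _

theorem fixedNum_pos {N : Type} {A : Subgroup (ℂ ≃+* ℂ)} {X : Set (N → ℂ)}
    (h : fixedNum A X ≠ 0) : ∃ χ ∈ X, ∀ t ∈ A, ∀ x, t (χ x) = χ x := by
  by_contra hcon
  apply h
  have : IsEmpty {χ : N → ℂ // χ ∈ X ∧ ∀ t ∈ A, ∀ x, t (χ x) = χ x} :=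
    ⟨fun χ => hcon ⟨χ.1, χ.2.1, χ.2.2⟩⟩
  exact Nat.card_of_isEmpty

/-- equivariant bijections give equalities -/
theorem num_eq {A A' : Subgroup (ℂ ≃+* ℂ)} {B : (G → F) → F} (hB : IsBlock B) {D : Subgroup G}
    (hA : A' ≤ A) (h : PermIso (blockStab red A B) (Irr0 p red B D) (Irr0Local p red B D)) :
    fixedNum A' (Irr0 p red B D) = fixedNum A' (Irr0Local p red B D) := by
  by_cases hst : A' ≤ blockStab red A B
  · exact Pool.Agent.Q259.BW.num_of_bij h (Δ := (A' : Set (ℂ ≃+* ℂ))) hst
  · have tst := Pool.Agent.N85.TG.Tst.main Pool.Agent.N85.TG.Val.main F red A' G B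
    have up : blockStab red A' B ≤ blockStab red A B := fun t ht => ⟨hA ht.1, ht.2⟩
    have h1 : fixedNum A' (Irr0 p red B D) = 0 := by
      by_contra hne
      obtain ⟨χ, hχ, hfx⟩ := fixedNum_pos hne
      exact hst ((le_stab red hB (tst.1 χ hχ.1.1 hχ.1.2 hfx)).trans up)
    have h2 : fixedNum A' (Irr0Local p red B D) = 0 := by
      by_contra hne
      obtain ⟨ψ, hψ, hfx⟩ := fixedNum_pos hne
      exact hst ((le_stab red hB (tst.2 _ ψ hψ.1.1 hψ.1.2.1 hfx)).trans up)
    rw [h1, h2]

/-- equalities give equivariant bijections -/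
theorem perm_of {A : Subgroup (ℂ ≃+* ℂ)} {B : (G → F) → F} (hB : IsBlock B) {D : Subgroup G}
    (h : ∀ A' ≤ A, fixedNum A' (Irr0 p red B D) = fixedNum A' (Irr0Local p red B D)) :
    PermIso (blockStab red A B) (Irr0 p red B D) (Irr0Local p red B D) := by
  have hle : blockStab red A B ≤ A := fun t ht => ht.1
  by_cases h0 : fixedNum (⊥ : Subgroup (ℂ ≃+* ℂ)) (Irr0 p red B D) = 0
  · have h1 := h ⊥ bot_le
    rw [h0] at h1
    have e1 : ∀ {N : Type} {X : Set (N → ℂ)}, X.Finite →
        fixedNum (⊥ : Subgroup (ℂ ≃+* ℂ)) X = 0 → X = ∅ := by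
      intro N X hX hX0
      rw [Set.eq_empty_iff_forall_notMem]
      intro χ hχ
      have hf : Finite {χ : N → ℂ // χ ∈ X ∧ ∀ t ∈ (⊥ : Subgroup (ℂ ≃+* ℂ)), ∀ x,
          t (χ x) = χ x} := by
        have : Finite X := hX
        refine Finite.of_injective (fun χ => (⟨χ.1, χ.2.1⟩ : X)) fun a b hab => ?_
        have h5 : a.1 = b.1 := congrArg (fun r : X => (r : N → ℂ)) hab
        exact Subtype.ext h5
      have hne : Nonempty {χ : N → ℂ // χ ∈ X ∧ ∀ t ∈ (⊥ : Subgroup (ℂ ≃+* ℂ)), ∀ x,
          t (χ x) = χ x} := ⟨⟨χ, hχ, fun t ht x => by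
            rw [Subgroup.mem_bot] at ht
            rw [ht]
            rfl⟩⟩
      exact Nat.card_pos.ne' hX0
    have hX := e1 (finX red) h0
    have hY := e1 (finY red) h1.symm
    have i1 : IsEmpty (Irr0 p red B D) := by rw [hX]; infer_instance
    have i2 : IsEmpty (Irr0Local p red B D) := by rw [hY]; infer_instance
    exact ⟨Equiv.equivOfIsEmpty _ _, fun σ _ χ => i1.elim χ⟩
  · obtain ⟨χ, hχ, -⟩ := fixedNum_pos h0
    exact Pool.Agent.Q259.BW.bij_of_num (finX red) (finY red)
      (Γ := blockStab red A B) (fun σ hσ χ hχ => stable0 red hσ hχ)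
      (fun σ hσ ψ hψ => stableL red hB hσ hχ.1 hψ) fun A' hA' => h A' (hA'.trans hle)

end blocks

theorem closed_iff (𝒞 : ∀ (P : Type) [Group P], Prop) (h : ClosedUnderPowers 𝒞) :
    Pool.Agent.N85.AM.Closed 𝒞 := ⟨fun P P' _ _ e hP => h.1 P P' e hP, fun P _ n hP => h.2 P n hP⟩

theorem pgroup_of {p : ℕ} [Fact p.Prime] {S G : Type} [Group S] [Group G]
    (hS : commutator S = ⊤) (h : GeneratedBy p S G) : IsPGroup p (Abelianization G) := by
  let P : Subgroup (Abelianization G) :=
    { carrier := {x | ∃ j : ℕ, x ^ p ^ j = 1}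
      one_mem' := ⟨0, one_pow _⟩
      mul_mem' := by
        rintro a b ⟨i, hi⟩ ⟨j, hj⟩
        refine ⟨i + j, ?_⟩
        rw [mul_pow, pow_add, pow_mul, hi, one_pow, one_mul, mul_comm, pow_mul, hj, one_pow]
      inv_mem' := by
        rintro a ⟨i, hi⟩
        exact ⟨i, by rw [inv_pow, hi, inv_one]⟩ }
  have h1 : (⊤ : Subgroup G) ≤ P.comap Abelianization.of := by
    rw [← h]
    refine sup_le ?_ (iSup_le fun S' => ?_)
    · rw [Subgroup.closure_le]
      rintro x ⟨j, hj⟩
      refine ⟨j, ?_⟩
      rw [← map_pow, ← hj, pow_orderOf_eq_one, map_one]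
    · obtain ⟨e⟩ := S'.2
      have h2 : commutator S'.1 = ⊤ := by
        have h2 : (commutator S).map e.symm.toMonoidHom = commutator S'.1 := by
          unfold commutator
          rw [Subgroup.map_commutator]
          have h3 : (⊤ : Subgroup S).map e.symm.toMonoidHom = ⊤ :=
            Subgroup.map_top_of_surjective _ e.symm.surjective
          rw [h3]
        rw [← h2, hS]
        exact Subgroup.map_top_of_surjective _ e.symm.surjective
      have h4 : S'.1 = (commutator S'.1).map S'.1.subtype := by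
        rw [h2, ← MonoidHom.range_eq_map, Subgroup.range_subtype]
      have h5 : S'.1 ≤ commutator G := by
        rw [h4]
        unfold commutator
        rw [Subgroup.map_commutator]
        exact Subgroup.commutator_mono le_top le_top
      intro x hx
      have h6 : x ∈ (Abelianization.of : G →* Abelianization G).ker := by
        rw [Abelianization.ker_of]
        exact h5 hx
      rw [MonoidHom.mem_ker] at h6
      exact ⟨0, by rw [h6, one_pow]⟩
  intro x
  obtain ⟨g, rfl⟩ := QuotientGroup.mk_surjective x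
  exact h1 (Subgroup.mem_top g)

/-- **The Alperin–McKay–Navarro conjecture and groups generated by `p`-elements and copies of a
`p'`-group.** Let `p` be a prime, `S` a nontrivial finite group of order prime to `p` and `𝒞` a class of
groups which is closed under isomorphisms and direct powers (e.g. the class of all groups, or of all
abelian groups). We consider blocks `B` with defect groups `D ∈ 𝒞`; let `b` be the Brauer correspondent.
(1) For every group `A` of automorphisms of `ℂ`: `|Irr₀(B)^{A_p(G)}| ≤ |Irr₀(b)^{A_p(G)}|` holds for all such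
blocks `B` of all finite groups `G` if and only if for every `ε > 0` there is a constant `C` such that
`|Irr₀(B)^{A_p(G)}| ≤ C |G|^ε |Irr₀(b)^{A_p(G)}|` for all such blocks of the finite groups `G` generated by
`p`-elements and subgroups isomorphic to `S`; the same with the two numbers exchanged; and the same for
the equality and both approximate inequalities.
(2) For every group `A` of automorphisms of `ℂ` (for instance the group `𝓗` of the conjecture) there are
`A_p(G)_B`-equivariant bijections `Irr₀(B) → Irr₀(b)` for all such blocks of all finite groups `G` if and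
only if both approximate inequalities hold for all subgroups of `A`.
(3) If `S` is perfect, then `G/[G, G]` is a `p`-group for the groups `G` generated by `p`-elements and
subgroups isomorphic to `S`. -/
theorem result (p : ℕ) [Fact p.Prime] (F : Type) [Field F] [IsAlgClosed F] [CharP F p]
    (red : integralClosure ℤ ℂ →+* F) (S : Type) [Group S] [Finite S] [Nontrivial S]
    (hS : ¬ p ∣ Nat.card S) (𝒞 : ∀ (P : Type) [Group P], Prop) (h𝒞 : ClosedUnderPowers 𝒞) :
    (∀ A : Subgroup (ℂ ≃+* ℂ),
      (Exact p red A 𝒞 (fun a b => a ≤ b) ↔ Approximate p red A 𝒞 S (fun c a b => a ≤ c * b)) ∧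
      (Exact p red A 𝒞 (fun a b => b ≤ a) ↔ Approximate p red A 𝒞 S (fun c a b => b ≤ c * a)) ∧
      (Exact p red A 𝒞 (fun a b => a = b) ↔
        Approximate p red A 𝒞 S (fun c a b => a ≤ c * b ∧ b ≤ c * a))) ∧
    (∀ A : Subgroup (ℂ ≃+* ℂ),
      (∀ (G : Type) [Group G] [Finite G], ∀ B : (G → F) → F, IsBlock B → ∀ D : Subgroup G,
        IsDefectGroup p B D → 𝒞 D →
          PermIso (blockStab red (pPart p A (Nat.card G)) B) (Irr0 p red B D)
            (Irr0Local p red B D)) ↔
      ∀ A' ≤ A, Approximate p red A' 𝒞 S (fun c a b => a ≤ c * b ∧ b ≤ c * a)) ∧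
    (commutator S = ⊤ → ∀ (G : Type) [Group G], GeneratedBy p S G →
      IsPGroup p (Abelianization G)) := by
  have hh := Pool.Agent.N85.TG.allT
  have hDGN := Pool.Agent.N85.AM.Dgn.main Pool.Agent.N85.AM.Nk.main
  have hcl := closed_iff 𝒞 h𝒞
  -- exact implies approximate
  have ex1 : ∀ (A : Subgroup (ℂ ≃+* ℂ)) (R : ℕ → ℕ → Prop) (R' : ℝ → ℝ → ℝ → Prop),
      (∀ (c : ℝ) (a b : ℕ), 1 ≤ c → R a b → R' c a b) →
      Exact p red A 𝒞 R → Approximate p red A 𝒞 S R' := by
    intro A R R' hR h ε hε
    refine ⟨1, fun G _ _ _ B hB D hD hDC => ?_⟩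
    rw [one_mul]
    exact hR _ _ _ (Real.one_le_rpow (by exact_mod_cast Nat.card_pos) hε.le)
      (h G B hB D hD hDC)
  have ap1 : ∀ A : Subgroup (ℂ ≃+* ℂ), Approximate p red A 𝒞 S (fun c a b => a ≤ c * b) →
      Exact p red A 𝒞 (fun a b => a ≤ b) := by
    intro A h G _ _ B hB D hD hDC
    have h1 : Pool.Agent.N85.TG.ApxT1 p red A 𝒞 S := by
      intro ε hε
      obtain ⟨C, hC⟩ := h ε hε
      refine ⟨C, fun G _ _ hG B hB D hD hDC => ?_⟩
      have h2 := hC G hG B ((block_iff B).2 hB) D ((dg_iff B D).2 hD) hDC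
      rw [hz_eq, loc_eq hDGN red _ B D hD.pg] at h2
      exact h2
    have h3 := Pool.Agent.N85.TG.coreT1 red A hh hcl S hS h1 G B ((block_iff B).1 hB) D
      ((dg_iff B D).1 hD) hDC
    rw [hz_eq, loc_eq hDGN red _ B D hD.1]
    exact h3
  have ap2 : ∀ A : Subgroup (ℂ ≃+* ℂ), Approximate p red A 𝒞 S (fun c a b => b ≤ c * a) →
      Exact p red A 𝒞 (fun a b => b ≤ a) := by
    intro A h G _ _ B hB D hD hDC
    have h1 : Pool.Agent.N85.TG.ApxT2 p red A 𝒞 S := by
      intro ε hε
      obtain ⟨C, hC⟩ := h ε hε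
      refine ⟨C, fun G _ _ hG B hB D hD hDC => ?_⟩
      have h2 := hC G hG B ((block_iff B).2 hB) D ((dg_iff B D).2 hD) hDC
      rw [hz_eq, loc_eq hDGN red _ B D hD.pg] at h2
      exact h2
    have h3 := Pool.Agent.N85.TG.coreT2 red A hh hcl S hS h1 G B ((block_iff B).1 hB) D
      ((dg_iff B D).1 hD) hDC
    rw [hz_eq, loc_eq hDGN red _ B D hD.1]
    exact h3
  have ap3 : ∀ A : Subgroup (ℂ ≃+* ℂ),
      Approximate p red A 𝒞 S (fun c a b => a ≤ c * b ∧ b ≤ c * a) →
      Exact p red A 𝒞 (fun a b => a = b) := by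
    intro A h G _ _ B hB D hD hDC
    have h1 : Approximate p red A 𝒞 S (fun c a b => a ≤ c * b) := by
      intro ε hε
      obtain ⟨C, hC⟩ := h ε hε
      exact ⟨C, fun G _ _ hG B hB D hD hDC => (hC G hG B hB D hD hDC).1⟩
    have h2 : Approximate p red A 𝒞 S (fun c a b => b ≤ c * a) := by
      intro ε hε
      obtain ⟨C, hC⟩ := h ε hε
      exact ⟨C, fun G _ _ hG B hB D hD hDC => (hC G hG B hB D hD hDC).2⟩
    exact le_antisymm (ap1 A h1 G B hB D hD hDC) (ap2 A h2 G B hB D hD hDC)
  have c1 : ∀ (c : ℝ) (a b : ℕ), 1 ≤ c → a ≤ b → (a : ℝ) ≤ c * b := by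
    intro c a b hc hab
    have : (a : ℝ) ≤ b := by exact_mod_cast hab
    exact this.trans (le_mul_of_one_le_left (Nat.cast_nonneg b) hc)
  have c3 : ∀ A : Subgroup (ℂ ≃+* ℂ), Exact p red A 𝒞 (fun a b => a = b) →
      Approximate p red A 𝒞 S (fun c a b => a ≤ c * b ∧ b ≤ c * a) := fun A =>
    ex1 A _ _ fun c a b hc h => ⟨c1 c a b hc h.le, c1 c b a hc h.ge⟩
  refine ⟨fun A => ⟨⟨ex1 A _ _ c1, ap1 A⟩, ⟨ex1 A _ _ (fun c a b hc h => c1 c b a hc h), ap2 A⟩,
    ⟨c3 A, ap3 A⟩⟩, fun A => ⟨fun h A' hA' => c3 A' fun G _ _ B hB D hD hDC =>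
      num_eq red hB (pPart_mono p hA' _) (h G B hB D hD hDC),
    fun h G _ _ B hB D hD hDC => perm_of red hB fun A' hA' => ?_⟩,
    fun h G _ hG => pgroup_of h hG⟩
  have h1 := ap3 A' (h A' (hA'.trans (pPart_le p A _))) G B hB D hD hDC
  rw [pPart_self Nat.card_pos hA'] at h1
  exact h1

end Pool.Agent.Results.MP_7f1e7e_al.GeneratedByCopies
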