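import Pool.Agent.N22.OF.Unr

/-!
# The unramified part of the Alperin–McKay–Navarro conjecture follows from one number

`O` is a valuation subring of `ℂ` whose maximal ideal contains `p`; it defines the `p`-blocks of
finite groups. `L` is any group of automorphisms of `ℂ`.

* (1) If the numbers of `L`-fixed characters of height zero of `B` and of its Brauer correspondent
  `b` are equal for all Galois-stable blocks `B`, then the same holds for every subgroup `Δ` of `L`
  which contains the elements of `L` fixing the `m`-th roots of unity for some `m` prime to `p`, and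
  all `Δ`-stable blocks; and conversely.
* (2) Let `L` be unramified at `p`: for every `N` there is `m` prime to `p` such that the elements of
  `L` which fix all `m`-th roots of unity fix all `N`-th roots of unity. Then bijections
  `Irr₀(B) → Irr₀(b)` commuting with all elements of `L` which stabilise `B` exist for all blocks `B`
  if and only if the numbers of `L`-fixed characters are equal for all Galois-stable blocks.
* (3) Examples: the group generated by one automorphism acting as `ξ ↦ ξ ^ (p ^ e)`, `e ≥ 1`, on the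
  roots of unity of order prime to `p` (and in any way on the others), and every group of
  automorphisms which fixes the roots of unity of `p`-power order.

Proof. Let `B` be a `Δ`-stable block of `G`, `m` a multiple of the `p'`-part of `|G|` as in (1),
`c(σ) ∈ (ℤ/m)^×` the exponent of `σ` on the `m`-th roots of unity, `ι = (ℤ/m)^× / c(Δ)`, and
`B_i = σ(B)` for `i = c(σ) c(Δ)`. The characters of `(C_m × G^ι) ⋊ (ℤ/m)^×` above the characters
`λ ⊗ ⨂ τ_i`, `λ` a fixed faithful character of `C_m` and `τ_i ∈ B_i`, are induced from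
`C_m × G^ι`, and form a Galois-stable block with defect group `D^ι`, whose Brauer correspondent is
obtained in the same way from the `b_i`. Such a character is fixed by `σ` if and only if
`σ(τ_i) = τ_{c(σ) i}` for all `i`, so the number of `L`-fixed characters of height zero is
`|Irr₀(B)^Δ| ^ n`, `n` the number of orbits of `L` on `ι`.
-/

set_option autoImplicit false

namespace Pool.Agent.Results.MP_7f1e7e_al.OneFrobeniusDecides

open Pool.Agent.Q259.BW Pool.Agent.Q288.MB Pool.Agent.N19.RB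

/-- The block `B` is equal to all its Galois conjugates. -/
def GaloisStable (X : Dat) : Prop := ∀ σ : ℂ ≃+* ℂ, gal σ X.B = X.B

/-- The number of characters of height zero of the block `B` of `X` fixed by all elements of `L`. -/
noncomputable def fixed (p : ℕ) (L : Subgroup (ℂ ≃+* ℂ)) (X : Dat) : ℕ :=
  Nat.card (Fx (L : Set (ℂ ≃+* ℂ)) (X.ht0 p))

/-- The same number for the Brauer correspondent `b`. -/
noncomputable def fixed' (p : ℕ) (L : Subgroup (ℂ ≃+* ℂ)) (X : Dat) : ℕ :=
  Nat.card (Fx (L : Set (ℂ ≃+* ℂ)) (X.ht0' p))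

/-- There is a bijection from `Irr₀(B)` to `Irr₀(b)` which commutes with all `σ ∈ L` for which
`σ(B) = B`. -/
def Bijection (p : ℕ) (L : Subgroup (ℂ ≃+* ℂ)) (X : Dat) : Prop :=
  EquivBij {σ | σ ∈ L ∧ gal σ X.B = X.B} (X.ht0 p) (X.ht0' p)

/-- `Δ` contains all elements of `L` which fix all `m`-th roots of unity. -/
def Contains (m : ℕ) (L Δ : Subgroup (ℂ ≃+* ℂ)) : Prop :=
  ∀ σ ∈ L, (∀ ξ : ℂ, ξ ^ m = 1 → σ ξ = ξ) → σ ∈ Δ

/-- For every `N` there is `m` prime to `p` such that the elements of `L` which fix all `m`-th roots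
of unity fix all `N`-th roots of unity. -/
def Unramified (p : ℕ) (L : Subgroup (ℂ ≃+* ℂ)) : Prop :=
  ∀ N : ℕ, N ≠ 0 → ∃ m : ℕ, m ≠ 0 ∧ ¬ p ∣ m ∧ ∀ σ ∈ L, (∀ ξ : ℂ, ξ ^ m = 1 → σ ξ = ξ) →
    ∀ ξ : ℂ, ξ ^ N = 1 → σ ξ = ξ

/-- **The unramified part of the Alperin–McKay–Navarro conjecture.** Let `p` be any prime and `C` a
class of groups closed under isomorphisms and finite powers. -/
theorem result (p : ℕ) [Fact p.Prime] (O : ValuationSubring ℂ) (hpO : (p : ℂ) ∈ O.nonunits)
    (C : (D : Type) → Group D → Prop) (hC : PowClosed C) :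
    -- (1)
    (∀ L : Subgroup (ℂ ≃+* ℂ),
      (∀ X : Dat, X.IsBrauer p O → C X.D inferInstance → GaloisStable X →
        fixed p L X = fixed' p L X) ↔
      ∀ (Δ : Subgroup (ℂ ≃+* ℂ)) (m : ℕ), Δ ≤ L → m ≠ 0 → ¬ p ∣ m → Contains m L Δ →
        ∀ X : Dat, X.IsBrauer p O → C X.D inferInstance → (∀ δ ∈ Δ, gal δ X.B = X.B) →
          fixed p Δ X = fixed' p Δ X) ∧
    -- (2)
    (∀ L : Subgroup (ℂ ≃+* ℂ), Unramified p L →
      ((∀ X : Dat, X.IsBrauer p O → C X.D inferInstance → Bijection p L X) ↔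
        ∀ X : Dat, X.IsBrauer p O → C X.D inferInstance → GaloisStable X →
          fixed p L X = fixed' p L X)) ∧
    -- (3)
    (∀ (σ : ℂ ≃+* ℂ) (e : ℕ), e ≠ 0 →
      (∀ n : ℕ, ¬ p ∣ n → ∀ ξ : ℂ, ξ ^ n = 1 → σ ξ = ξ ^ p ^ e) →
      Unramified p (Subgroup.zpowers σ)) ∧
    ∀ L : Subgroup (ℂ ≃+* ℂ), (∀ σ ∈ L, ∀ (a : ℕ) (ξ : ℂ), ξ ^ p ^ a = 1 → σ ξ = ξ) →
      Unramified p L := by
  refine ⟨fun L => ⟨fun h Δ m hΔ hm hpm hc X hX hXC hs => ?_, fun h X hX hXC hg =>
    h L 1 le_rfl one_ne_zero (fun hd => (Fact.out : p.Prime).one_lt.ne' (Nat.dvd_one.mp hd))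
      (fun σ hσ _ => hσ) X hX hXC fun δ _ => hg δ⟩,
    fun L hL => Pool.Agent.N22.OF.bij_iff_fix hpO hC hL,
    fun σ e he h => Pool.Agent.N22.OF.unr_of_frob he h,
    fun L h => Pool.Agent.N22.OF.unr_of_fix h⟩
  obtain ⟨Y, n, l, hn, hY, hYg, ⟨e⟩, c1, c2⟩ :=
    Pool.Agent.N22.OF.exists_L hpO hX L Δ hΔ hm hpm hc hs
  have h3 : Nat.card (Fx (L : Set (ℂ ≃+* ℂ)) (Y.ht0 p)) =
      Nat.card (Fx (L : Set (ℂ ≃+* ℂ)) (Y.ht0' p)) :=
    h Y hY (hC.1 _ _ ⟨e.symm⟩ (hC.2 _ l hXC)) hYg
  rw [c1, c2] at h3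
  exact Nat.pow_left_injective hn h3

end Pool.Agent.Results.MP_7f1e7e_al.OneFrobeniusDecides
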